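import Pool.Agent.Helper52.KT.St

set_option autoImplicit false
set_option linter.unusedSectionVars false

/-! Project KT, module FN: final combination. -/

namespace Pool.Agent.Helper73.KT

open Pool.Agent.Helper26.Kempe Pool.Agent.Helper52.KT Pool.Agent.Helper52.KT.St
open Pool.Agent.Helper52.KR (N Zc Mn Hs)
open scoped Classical

private theorem fn_sum {V : Type} [Fintype V] {s : ℕ} (π : V → Fin s) (A : Finset V) (B : ℝ)
    (hB : ∀ i, ((A.filter (fun w => π w = i)).card : ℝ) ≤ B) (P : Finset (Fin s)) :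
    ((A.filter (fun w => π w ∈ P)).card : ℝ) ≤ P.card * B := by
  have h1 : (A.filter (fun w => π w ∈ P)).card =
      ∑ i ∈ P, ((A.filter (fun w => π w ∈ P)).filter (fun w => π w = i)).card :=
    Finset.card_eq_sum_card_fiberwise (fun w hw => (Finset.mem_filter.1 hw).2)
  rw [h1]
  push_cast
  have h2 : ∀ i ∈ P, ((((A.filter (fun w => π w ∈ P)).filter (fun w => π w = i)).card : ℕ) : ℝ)
      ≤ B := by
    intro i hi
    refine le_trans ?_ (hB i)
    have : ((A.filter (fun w => π w ∈ P)).filter (fun w => π w = i)).card ≤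
        (A.filter (fun w => π w = i)).card := by
      apply Finset.card_le_card
      intro w hw
      simp only [Finset.mem_filter] at hw ⊢
      exact ⟨hw.1.1, hw.2⟩
    exact_mod_cast this
  refine (Finset.sum_le_card_nsmul _ _ _ h2).trans ?_
  rw [nsmul_eq_mul]

private theorem fn_core {V : Type} [Fintype V] {G : SimpleGraph V} {Δ D₀ s : ℕ}
    {t ε η η0 κ1 κ2 δ : ℝ} (π : V → Fin s) (hε : 0 < ε) (ht : 0 ≤ t) (hs : 1 ≤ s)
    (hce : ∀ x, (ce G t x : ℝ) ≤ η * Δ)
    (hR : ∀ H : SimpleGraph V, H ≤ G → ∀ (D' k' : ℕ) (t' : ℝ), D₀ ≤ D' → 0 ≤ t' →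
      (∀ x, (N H x).card ≤ D') → (∀ x, (ce H t' x : ℝ) ≤ η0 * D') →
      κ1 * D' + κ2 * t' + δ / 16 * D' + 2 ≤ k' → El H k')
    (h1 : ∀ x i, (((N G x).filter (fun w => π w = i)).card : ℝ) ≤ (1 + ε) * Δ / s)
    (h2 : ∀ x y, G.Adj x y → ∀ i, (((N G x ∩ N G y).filter (fun w => π w = i)).card : ℝ) ≤
      (((N G x ∩ N G y).card : ℝ) + ε * Δ) / s)
    (P : Finset (Fin s)) (hP : P.Nonempty) (H : SimpleGraph V) (hH : H ≤ G)
    (hHP : ∀ x w, H.Adj x w → π w ∈ P) (k' : ℕ)
    (hD : D₀ ≤ ⌊(P.card : ℝ) * ((1 + ε) * Δ / s)⌋₊)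
    (hη : η * Δ ≤ η0 * (⌊(P.card : ℝ) * ((1 + ε) * Δ / s)⌋₊ : ℝ))
    (hk : κ1 * (⌊(P.card : ℝ) * ((1 + ε) * Δ / s)⌋₊ : ℝ) +
      κ2 * ((P.card : ℝ) * ((t + ε * Δ) / s)) +
      δ / 16 * (⌊(P.card : ℝ) * ((1 + ε) * Δ / s)⌋₊ : ℝ) + 2 ≤ k') : El H k' := by
  have hs' : (0 : ℝ) < s := by exact_mod_cast (by omega : 0 < s)
  have hPc : (0 : ℝ) < P.card := by exact_mod_cast hP.card_pos
  refine hR H hH _ k' _ hD ?_ ?_ ?_ hk
  · positivity
  · intro x
    apply Nat.le_floor
    refine le_trans ?_ (fn_sum π (N G x) _ (h1 x) P)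
    have : (N H x).card ≤ ((N G x).filter (fun w => π w ∈ P)).card := by
      apply Finset.card_le_card
      intro w hw
      simp only [N, Finset.mem_filter, Finset.mem_univ, true_and] at hw ⊢
      exact ⟨hH hw, hHP x w hw⟩
    exact_mod_cast this
  · intro x
    refine le_trans ?_ ((hce x).trans hη)
    have : ce H ((P.card : ℝ) * ((t + ε * Δ) / s)) x ≤ ce G t x := by
      unfold ce
      apply Finset.card_le_card
      intro y hy
      simp only [Finset.mem_filter, Finset.mem_univ, true_and] at hy ⊢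
      obtain ⟨hxy, hlt⟩ := hy
      refine ⟨hH hxy, ?_⟩
      have e1 : ((N H x ∩ N H y).card : ℝ) ≤
          (((N G x ∩ N G y).filter (fun w => π w ∈ P)).card : ℝ) := by
        have : (N H x ∩ N H y).card ≤ ((N G x ∩ N G y).filter (fun w => π w ∈ P)).card := by
          apply Finset.card_le_card
          intro w hw
          simp only [N, Finset.mem_filter, Finset.mem_univ, true_and, Finset.mem_inter] at hw ⊢
          exact ⟨⟨hH hw.1, hH hw.2⟩, hHP x w hw.1⟩
        exact_mod_cast this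
      have e2 := fn_sum π (N G x ∩ N G y) _ (h2 x y (hH hxy)) P
      have e3 : (P.card : ℝ) * ((t + ε * Δ) / s) <
          (P.card : ℝ) * ((((N G x ∩ N G y).card : ℝ) + ε * Δ) / s) :=
        lt_of_lt_of_le hlt (e1.trans e2)
      have e4 := lt_of_mul_lt_mul_left e3 hPc.le
      rw [div_lt_div_iff_of_pos_right hs'] at e4
      linarith
    exact_mod_cast this

theorem hFN : FN := by
  intro hLI hRC hGC hDC hCF hPT hCP hSG hSE hNU κ1 κ2 δ η0 D₀ hκ1 hκ2 hκ hδ hδ1 hη0
  obtain ⟨s, ε, η, Δ₁, hs, hε, hε1, hη, hnum⟩ := hNU κ1 κ2 δ η0 D₀ hκ1 hκ2 hκ hδ hδ1 hη0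
  obtain ⟨Δ₂, hpart⟩ := hPT hCF s ε hs hε hε1
  refine ⟨η, max Δ₁ Δ₂, hη, ?_⟩
  intro V _ G Δ k t hΔ ht htΔ hdeg hce hR hk f g hf hg
  have hs' : (0 : ℝ) < s := by exact_mod_cast (by omega : 0 < s)
  obtain ⟨q, hq, hq1, hq2⟩ := hnum Δ k t ((le_max_left _ _).trans hΔ) ht htΔ hk
  obtain ⟨π, h1, h2⟩ := hpart V G Δ ((le_max_right _ _).trans hΔ) hdeg
  have core := fn_core (D₀ := D₀) (η0 := η0) (κ1 := κ1) (κ2 := κ2) (δ := δ) π hε ht hs hce hR h1 h2
  -- the parts
  have hlast : ((s : ℝ) - ((s - 1 : ℕ) : ℝ)) = 1 := by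
    have : ((s - 1 : ℕ) : ℝ) = (s : ℝ) - 1 := by
      rw [Nat.cast_sub hs]; norm_num
    rw [this]; ring
  obtain ⟨l1, l2, l3⟩ := hq2 (s - 1) (by omega)
  rw [hlast] at l1 l2 l3
  have hcol : ∀ i : Fin s, ∃ c : V → Fin q,
      Proper (Hs G (Finset.univ.filter (fun x => π x = i))) c := by
    intro i
    have hHG : Hs G (Finset.univ.filter (fun x => π x = i)) ≤ G := by
      intro x y hxy
      simp only [Hs] at hxy
      exact hxy.1
    refine hCP hGC hDC V _ Δ q ?_ hq ?_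
    · intro x
      refine le_trans (Finset.card_le_card ?_) (hdeg x)
      intro w hw
      simp only [N, Finset.mem_filter, Finset.mem_univ, true_and] at hw ⊢
      exact hHG hw
    · intro k' hk'
      refine core {i} (Finset.singleton_nonempty _) _ hHG ?_ k' ?_ ?_ ?_
      · intro x w hxw
        simp only [Hs, Finset.mem_filter, Finset.mem_univ, true_and] at hxw
        rw [Finset.mem_singleton]
        tauto
      · rw [Finset.card_singleton, Nat.cast_one]; exact l1
      · rw [Finset.card_singleton, Nat.cast_one]; exact l2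
      · rw [Finset.card_singleton, Nat.cast_one, one_mul, one_mul]
        refine hq1.trans ?_
        exact_mod_cast hk'.le
  choose c hc using hcol
  let γ : V → ℕ := fun x => (π x : ℕ) * q + (c (π x) x : ℕ)
  have hγlt : ∀ x, γ x < ((π x : ℕ) + 1) * q := by
    intro x
    have := (c (π x) x).isLt
    simp only [γ]
    nlinarith
  have hγp : ∀ x, γ x < s * q := by
    intro x
    refine (hγlt x).trans_le ?_
    exact Nat.mul_le_mul_right _ (π x).isLt
  have hdivγ : ∀ x, γ x / q = (π x : ℕ) := by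
    intro x
    apply Nat.div_eq_of_lt_le
    · simp only [γ]; omega
    · exact hγlt x
  have hsq : s * q ≤ k := by
    have e1 : (((s - 1 : ℕ) : ℝ) + 1) * q = (s : ℝ) * q := by
      have : ((s - 1 : ℕ) : ℝ) = (s : ℝ) - 1 := by
        rw [Nat.cast_sub hs]; norm_num
      rw [this]; ring
    rw [e1] at l3
    have e2 : (0 : ℝ) ≤ κ1 * (⌊(1 : ℝ) * ((1 + ε) * Δ / s)⌋₊ : ℝ) := by positivity
    have e3 : (0 : ℝ) ≤ κ2 * ((1 : ℝ) * ((t + ε * Δ) / s)) := by positivity
    have e4 : (0 : ℝ) ≤ δ / 16 * (⌊(1 : ℝ) * ((1 + ε) * Δ / s)⌋₊ : ℝ) := by positivity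
    have e5 : (s : ℝ) * q ≤ k := by linarith
    exact_mod_cast e5
  refine hSE hLI hRC hSG V k G γ (s * q) ?_ hγp hsq ?_ f g hf hg
  · intro x y hxy he
    have e1 : (π x : ℕ) = π y := by rw [← hdivγ x, ← hdivγ y, he]
    have e2 : π x = π y := Fin.ext e1
    have e3 : (c (π x) x : ℕ) = (c (π y) y : ℕ) := by
      have : (π x : ℕ) * q + (c (π x) x : ℕ) = (π y : ℕ) * q + (c (π y) y : ℕ) := he
      rw [e1] at this
      omega
    have e4 : c (π x) x = c (π x) y := by
      apply Fin.ext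
      rw [e3, e2]
    have e5 : (Hs G (Finset.univ.filter (fun z => π z = π x))).Adj x y := by
      exact ⟨hxy, by simp, by simp [e2]⟩
    exact hc (π x) x y e5 e4
  · intro j hj
    have hqpos : 0 < q := hq
    have hi : j / q < s := (Nat.div_lt_iff_lt_mul hqpos).2 hj
    obtain ⟨m1, m2, m3⟩ := hq2 (j / q) hi
    have hPeq : (Finset.univ.filter (fun i' : Fin s => j / q ≤ (i' : ℕ))) =
        Finset.Ici (⟨j / q, hi⟩ : Fin s) := by
      ext i'
      simp [Fin.le_def]
    have hPcard : (((Finset.univ.filter (fun i' : Fin s => j / q ≤ (i' : ℕ))).card : ℕ) : ℝ) =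
        (s : ℝ) - ((j / q : ℕ) : ℝ) := by
      rw [hPeq, Fin.card_Ici]
      rw [Nat.cast_sub hi.le]
    have hHG : Hs G (Finset.univ.filter (fun x => j ≤ γ x)) ≤ G := by
      intro x y hxy
      simp only [Hs] at hxy
      exact hxy.1
    refine core (Finset.univ.filter (fun i' : Fin s => j / q ≤ (i' : ℕ)))
      ⟨⟨j / q, hi⟩, by simp⟩ _ hHG ?_ (k - j) ?_ ?_ ?_
    · intro x w hxw
      simp only [Hs, Finset.mem_filter, Finset.mem_univ, true_and] at hxw ⊢
      have hw : j ≤ γ w := by tauto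
      have : j / q < (π w : ℕ) + 1 :=
        (Nat.div_lt_iff_lt_mul hqpos).2 (hw.trans_lt (hγlt w))
      omega
    · rw [hPcard]; exact m1
    · rw [hPcard]; exact m2
    · rw [hPcard]
      have hjk : j ≤ k := hj.le.trans hsq
      rw [Nat.cast_sub hjk]
      have e1 : j < (j / q + 1) * q := by
        have := Nat.lt_div_mul_add (a := j) hqpos
        nlinarith
      have e2 : (j : ℝ) ≤ (((j / q : ℕ) : ℝ) + 1) * q := by
        have : j ≤ (j / q + 1) * q := e1.le
        exact_mod_cast this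
      linarith

end Pool.Agent.Helper73.KT
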