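import Pool.Agent.Helper52.KT.St
import Pool.Agent.Helper96.OR.M1

set_option autoImplicit false
set_option linter.unusedSectionVars false

/-! Project KT, module PT: balanced partition by the local lemma. -/

namespace Pool.Agent.Helper73.KT

open Pool.Agent.Helper26.Kempe Pool.Agent.Helper52.KT Pool.Agent.Helper52.KT.St
open Pool.Agent.Helper52.KR (N Zc Mn Hs)
open scoped Classical

private theorem pt_num (s : ℕ) (ε : ℝ) (hs : 1 ≤ s) (hε : 0 < ε) : ∃ Δ₀ : ℕ, 1 ≤ Δ₀ ∧
    ∀ Δ : ℕ, Δ₀ ≤ Δ →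
      Real.exp (-(ε ^ 2 * Δ / (4 * s))) * (((Δ * (Δ * ((Δ + 1) * s)) : ℕ) : ℝ) + 1) ≤ 1 / 4 := by
  have hs' : (1 : ℝ) ≤ s := by exact_mod_cast hs
  set c : ℝ := ε ^ 2 / (4 * s) with hc
  have hcpos : 0 < c := by positivity
  refine ⟨⌈288 * s / c ^ 4⌉₊ + 1, by omega, fun Δ hΔ => ?_⟩
  have h1 : 288 * s / c ^ 4 ≤ (Δ : ℝ) := by
    refine (Nat.le_ceil _).trans ?_
    exact_mod_cast (by omega : ⌈288 * s / c ^ 4⌉₊ ≤ Δ)
  have hΔ1 : (1 : ℝ) ≤ Δ := by exact_mod_cast (by omega : 1 ≤ Δ)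
  have h2 : 288 * s ≤ c ^ 4 * Δ := by
    rw [div_le_iff₀ (by positivity)] at h1
    linarith
  have h3 : (c * Δ) ^ 4 / (Nat.factorial 4 : ℕ) ≤ Real.exp (c * Δ) :=
    Real.pow_div_factorial_le_exp _ (by positivity) 4
  have h4 : ((Nat.factorial 4 : ℕ) : ℝ) = 24 := by norm_num [Nat.factorial]
  rw [h4] at h3
  have h5 : -(ε ^ 2 * Δ / (4 * s)) = -(c * Δ) := by rw [hc]; ring
  rw [h5, Real.exp_neg, inv_mul_le_iff₀ (Real.exp_pos _)]
  have h6 : (((Δ * (Δ * ((Δ + 1) * s)) : ℕ) : ℝ) + 1) ≤ 3 * (Δ : ℝ) ^ 3 * s := by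
    push_cast
    have e1 : (1 : ℝ) ≤ (Δ : ℝ) ^ 3 * s := by
      have : (1 : ℝ) ≤ (Δ : ℝ) ^ 3 := one_le_pow₀ hΔ1
      nlinarith
    have e2 : (Δ : ℝ) ^ 2 * s ≤ (Δ : ℝ) ^ 3 * s := by
      apply mul_le_mul_of_nonneg_right _ (by positivity)
      exact pow_le_pow_right₀ hΔ1 (by norm_num)
    nlinarith
  have h7 : 12 * (Δ : ℝ) ^ 3 * s ≤ (c * Δ) ^ 4 / 24 := by
    have e3 : (c * Δ) ^ 4 / 24 = (c ^ 4 * Δ) * (Δ : ℝ) ^ 3 / 24 := by ring
    rw [e3]
    have e4 : 288 * s * (Δ : ℝ) ^ 3 ≤ (c ^ 4 * Δ) * (Δ : ℝ) ^ 3 :=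
      mul_le_mul_of_nonneg_right h2 (by positivity)
    linarith
  linarith

theorem hPT : PT := by
  intro hCF s ε hs hε hε1
  obtain ⟨Δ₀, hΔ₀, hnum⟩ := pt_num s ε hs hε
  refine ⟨Δ₀, ?_⟩
  intro V _ G Δ hΔ hdeg
  have hs' : (0 : ℝ) < s := by exact_mod_cast (by omega : 0 < s)
  have : Nonempty (Fin s) := ⟨⟨0, by omega⟩⟩
  let S' : V × V × Fin s → Finset V := fun j =>
    if j.1 = j.2.1 then N G j.1 else if G.Adj j.1 j.2.1 then N G j.1 ∩ N G j.2.1 else ∅
  have hSsub : ∀ j, S' j ⊆ N G j.1 := by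
    intro j
    simp only [S']
    split_ifs
    · exact subset_rfl
    · exact Finset.inter_subset_left
    · exact Finset.empty_subset _
  have hScard : ∀ j, (S' j).card ≤ Δ := fun j => (Finset.card_le_card (hSsub j)).trans (hdeg _)
  have hSne : ∀ j w, w ∈ S' j → j.2.1 ∈ insert j.1 (N G j.1) := by
    intro j w hw
    simp only [S'] at hw
    split_ifs at hw with h1 h2
    · rw [h1]; exact Finset.mem_insert_self _ _
    · exact Finset.mem_insert_of_mem (by simp [N, h2])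
    · simp at hw
  let E : V × V × Fin s → Set (V → Fin s) := fun j =>
    {ω | ((S' j).card : ℝ) / s + ε * Δ / s < (((S' j).filter (fun y => ω y = j.2.2)).card : ℝ)}
  have hdep : ∀ j (ω ω' : ∀ _ : V, Fin s), (∀ a ∈ S' j, ω a = ω' a) → (ω ∈ E j ↔ ω' ∈ E j) := by
    intro j ω ω' h
    have : (S' j).filter (fun y => ω y = j.2.2) = (S' j).filter (fun y => ω' y = j.2.2) := by
      apply Finset.filter_congr
      intro y hy
      rw [h y hy]
    simp only [E, Set.mem_ofPred_eq, this]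
  have hp : ∀ j, ((E j).ncard : ℝ) ≤ Real.exp (-(ε ^ 2 * Δ / (4 * s))) *
      Fintype.card (∀ _ : V, Fin s) := by
    intro j
    have h := hCF V s (S' j) Δ j.2.2 ε hε hε1 (hScard j)
    have h1 : (E j).ncard = ((Finset.univ : Finset (V → Fin s)).filter (fun ω =>
        ((S' j).card : ℝ) / s + ε * Δ / s <
          (((S' j).filter (fun y => ω y = j.2.2)).card : ℝ))).card := by
      rw [← Set.ncard_coe_finset]
      congr 1
      ext ω
      simp [E]
    rw [h1]
    have h2 : (Fintype.card (∀ _ : V, Fin s) : ℝ) = (s : ℝ) ^ Fintype.card V := by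
      rw [Fintype.card_fun, Fintype.card_fin]
      push_cast
      rfl
    rw [h2]
    exact h
  have hD : ∀ i, {j : V × V × Fin s | ¬ Disjoint (S' i) (S' j)}.ncard ≤
      Δ * (Δ * ((Δ + 1) * s)) := by
    intro i
    let T : V → Finset (V × V × Fin s) := fun w => (N G w).biUnion (fun x =>
      ((insert x (N G x)) ×ˢ (Finset.univ : Finset (Fin s))).image (fun p => (x, p.1, p.2)))
    have hT : ∀ w, (T w).card ≤ Δ * ((Δ + 1) * s) := by
      intro w
      refine Finset.card_biUnion_le.trans ?_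
      refine (Finset.sum_le_card_nsmul _ _ ((Δ + 1) * s) ?_).trans ?_
      · intro x _
        refine Finset.card_image_le.trans ?_
        rw [Finset.card_product, Finset.card_univ, Fintype.card_fin]
        apply Nat.mul_le_mul_right
        exact (Finset.card_insert_le _ _).trans (by have := hdeg x; omega)
      · rw [smul_eq_mul]
        exact Nat.mul_le_mul_right _ (hdeg w)
    have hsub : {j : V × V × Fin s | ¬ Disjoint (S' i) (S' j)} ⊆
        (((S' i).biUnion T : Finset (V × V × Fin s)) : Set (V × V × Fin s)) := by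
      intro j hj
      simp only [Set.mem_ofPred_eq, Finset.not_disjoint_iff] at hj
      obtain ⟨w, hw1, hw2⟩ := hj
      rw [Finset.mem_coe, Finset.mem_biUnion]
      refine ⟨w, hw1, ?_⟩
      rw [Finset.mem_biUnion]
      refine ⟨j.1, ?_, ?_⟩
      · have := hSsub j hw2
        simp only [N, Finset.mem_filter, Finset.mem_univ, true_and] at this ⊢
        exact this.symm
      · rw [Finset.mem_image]
        exact ⟨(j.2.1, j.2.2), by simpa using hSne j w hw2, rfl⟩
    calc {j : V × V × Fin s | ¬ Disjoint (S' i) (S' j)}.ncard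
        ≤ ((((S' i).biUnion T : Finset (V × V × Fin s)) : Set (V × V × Fin s))).ncard :=
          Set.ncard_le_ncard hsub (Finset.finite_toSet _)
      _ = ((S' i).biUnion T).card := Set.ncard_coe_finset _
      _ ≤ (S' i).card * (Δ * ((Δ + 1) * s)) := by
          refine Finset.card_biUnion_le.trans ?_
          refine (Finset.sum_le_card_nsmul _ _ (Δ * ((Δ + 1) * s)) (fun w _ => hT w)).trans ?_
          rw [smul_eq_mul]
      _ ≤ Δ * (Δ * ((Δ + 1) * s)) := Nat.mul_le_mul_right _ (hScard i)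
  obtain ⟨π, hπ⟩ := Pool.Agent.Helper96.OR.lll_prod (A := V) (ι := V × V × Fin s)
    (fun _ => Fin s) E S' hdep (Real.exp (-(ε ^ 2 * Δ / (4 * s)))) hp
    (Δ * (Δ * ((Δ + 1) * s))) hD (hnum Δ hΔ)
  refine ⟨π, ?_, ?_⟩
  · intro x i
    have h := hπ (x, x, i)
    simp only [E, S', Set.mem_ofPred_eq, if_true, not_lt] at h
    have h1 : ((N G x).card : ℝ) ≤ Δ := by exact_mod_cast hdeg x
    have h2 : ((N G x).card : ℝ) / s + ε * Δ / s ≤ (1 + ε) * Δ / s := by
      rw [← add_div]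
      apply div_le_div_of_nonneg_right _ hs'.le
      linarith
    exact h.trans h2
  · intro x y hxy i
    have h := hπ (x, y, i)
    simp only [E, S', Set.mem_ofPred_eq, if_neg hxy.ne, if_pos hxy, not_lt] at h
    rw [← add_div] at h
    exact h

end Pool.Agent.Helper73.KT
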