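import Pool.Agent.Helper7.KT.St

/-!
# Project KT (MP_5176ab_co), module NBC: the neighbourhood of a vertex is thin
-/

set_option autoImplicit false

namespace Pool.Agent.Helper73.KT

open Finset SimpleGraph Filter Topology
open EX Pool.Agent.Helper7.KT
open scoped Classical

theorem hNBC : StNBC := by
  intro V _ Γ s t c hs hK
  have h1 : ∑ v ∈ nb Γ univ c, (dg Γ univ v - 1).choose (s - 1) =
      ∑ v ∈ nb Γ univ c, ((powersetCard (s - 1) (univ : Finset V)).bipartiteAbove
        (fun v A => A ⊆ (nb Γ univ v).erase c) v).card := by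
    apply Finset.sum_congr rfl
    intro v hv
    have hcv : Γ.Adj c v := (Finset.mem_filter.1 hv).2
    have hc : c ∈ nb Γ univ v := Finset.mem_filter.2 ⟨Finset.mem_univ _, hcv.symm⟩
    have h2 : ((nb Γ univ v).erase c).card = dg Γ univ v - 1 := Finset.card_erase_of_mem hc
    rw [← h2, ← Finset.card_powersetCard]
    congr 1
    ext A
    simp only [Finset.mem_powersetCard, Finset.bipartiteAbove, Finset.mem_filter]
    constructor
    · rintro ⟨h3, h4⟩
      exact ⟨⟨Finset.subset_univ _, h4⟩, h3⟩
    · rintro ⟨⟨_, h4⟩, h3⟩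
      exact ⟨h3, h4⟩
  rw [h1, Finset.sum_card_bipartiteAbove_eq_sum_card_bipartiteBelow]
  have h5 : ∀ A ∈ powersetCard (s - 1) (univ : Finset V),
      ((nb Γ univ c).bipartiteBelow (fun v A => A ⊆ (nb Γ univ v).erase c) A).card ≤ t - 1 := by
    intro A hA
    rw [Finset.mem_powersetCard] at hA
    by_cases hc : c ∈ A
    · have h6 : (nb Γ univ c).bipartiteBelow (fun v A => A ⊆ (nb Γ univ v).erase c) A = ∅ := by
        apply Finset.filter_eq_empty_iff.2
        intro v _ h7
        exact (Finset.mem_erase.1 (h7 hc)).1 rfl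
      rw [h6, Finset.card_empty]
      exact Nat.zero_le _
    · have h8 := hK (insert c A) (Finset.subset_univ _) (by
        rw [Finset.card_insert_of_notMem hc, hA.2]
        omega)
      have h9 : ((nb Γ univ c).bipartiteBelow (fun v A => A ⊆ (nb Γ univ v).erase c) A) ⊆
          (univ.filter fun v => ∀ x ∈ insert c A, Γ.Adj v x) := by
        intro v hv
        rw [Finset.bipartiteBelow, Finset.mem_filter] at hv
        have hcv : Γ.Adj c v := (Finset.mem_filter.1 hv.1).2
        rw [Finset.mem_filter]
        refine ⟨Finset.mem_univ _, ?_⟩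
        intro x hx
        rcases Finset.mem_insert.1 hx with rfl | hx
        · exact hcv.symm
        · exact (Finset.mem_filter.1 (Finset.mem_erase.1 (hv.2 hx)).2).2
      have h10 := Finset.card_le_card h9
      have h11 : (univ.filter fun v => ∀ x ∈ insert c A, Γ.Adj v x).card < t := by
        convert h8
      exact Nat.le_sub_one_of_lt (lt_of_le_of_lt h10 h11)
  calc ∑ A ∈ powersetCard (s - 1) (univ : Finset V),
        ((nb Γ univ c).bipartiteBelow (fun v A => A ⊆ (nb Γ univ v).erase c) A).card
      ≤ ∑ _A ∈ powersetCard (s - 1) (univ : Finset V), (t - 1) := Finset.sum_le_sum h5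
    _ = (t - 1) * (Fintype.card V).choose (s - 1) := by
        rw [Finset.sum_const, Finset.card_powersetCard, Finset.card_univ, smul_eq_mul, mul_comm]

end Pool.Agent.Helper73.KT
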